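import Mathlib

/-!
# A base closed under finite intersections which is not resolvable (in ZFC)

`R` is the set of 0-1 sequences and `X` is the set of all sequences of letters, a letter being an
element of `R` or the extra letter `none`. A sequence is irregular if it has the letter `none`
infinitely often; the irregular sequences are coded by the elements of `R`. For an irregular
sequence `w` and `m` with `w m = none` let `A w m` consist of `w` and of all sequences which, for
some `k ≥ m` with `w k = none`, agree with `w` below `k` and whose `k`-th letter is the code of the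
tail of `w` after `k`. These sets together with the empty set are closed under intersections; they
are a base of clopen sets of a zero-dimensional Hausdorff topology without isolated points.

Given a partition `B0`, `B1` of this base, define a sequence `z` recursively: `z m = none` if all
`A w m`, where `w` agrees with `z` below `m` and `w m = none`, are in `B0`; otherwise `z m` is the
code of the tail of some such `w` with `A w m` not in `B0`. If `z` is irregular then `B1` is not a
base at `z`; otherwise `B0` is not a base at `z`.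
-/

set_option autoImplicit false

open TopologicalSpace Set Cardinal

namespace Pool.Agent.Results.MP_87f021_gt.IntersectionClosedBase

/-- The 0-1 sequences. -/
abbrev R : Type := ℕ → Bool

/-- The points: sequences of letters. -/
def X : Type := ℕ → Option R

/-- The letter `none` occurs infinitely often. -/
def Irr (z : X) : Prop := ∀ n, ∃ m, n ≤ m ∧ z m = none

/-- The irregular sequences. -/
abbrev W : Type := {z : X // Irr z}

theorem mk_R : #R = 𝔠 := by simp [R]

theorem mk_X : #X = 𝔠 := by
  have h : #X = #(ℕ → Option R) := rfl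
  rw [h]
  rw [← power_def, mk_option, mk_R, mk_nat, add_one_eq aleph0_le_continuum, continuum_power_aleph0]

theorem mk_W : #W = #R := by
  apply le_antisymm
  · calc #W ≤ #X := mk_subtype_le _
      _ = #R := by rw [mk_X, mk_R]
  · let f : R → W := fun r => ⟨fun n => if n = 0 then some r else none, fun n =>
      ⟨n + 1, Nat.le_succ n, by simp⟩⟩
    refine mk_le_of_injective (f := f) ?_
    intro r r' h
    have h1 : (f r).1 0 = (f r').1 0 := by rw [h]
    simpa [f] using h1

/-- The coding of irregular sequences. -/
noncomputable def E : W ≃ R := (Cardinal.eq.1 mk_W).some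

/-- The tail after `k`. -/
def tl (w : W) (k : ℕ) : W := ⟨fun j => w.1 (k + 1 + j), fun n => by
  obtain ⟨m, hm, h⟩ := w.2 (k + 1 + n)
  refine ⟨m - (k + 1), by omega, ?_⟩
  show w.1 (k + 1 + (m - (k + 1))) = none
  rw [show k + 1 + (m - (k + 1)) = m by omega]
  exact h⟩

/-- The code of the tail after `k`. -/
noncomputable def cd (w : W) (k : ℕ) : R := E (tl w k)

theorem cd_inj {w w' : W} {k : ℕ} (h : w.1 k = none) (h' : w'.1 k = none)
    (h1 : ∀ j < k, w.1 j = w'.1 j) (h2 : cd w k = cd w' k) : w = w' := by
  have h3 : tl w k = tl w' k := E.injective h2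
  apply Subtype.ext
  funext j
  rcases lt_trichotomy j k with h4 | h4 | h4
  · exact h1 j h4
  · rw [h4, h, h']
  · have h5 : (tl w k).1 (j - (k + 1)) = (tl w' k).1 (j - (k + 1)) := by rw [h3]
    have h6 : w.1 (k + 1 + (j - (k + 1))) = w'.1 (k + 1 + (j - (k + 1))) := h5
    rw [show k + 1 + (j - (k + 1)) = j by omega] at h6
    exact h6

theorem cd_surj (x : X) (k : ℕ) (ρ : R) :
    ∃ w : W, (∀ j < k, w.1 j = x j) ∧ w.1 k = none ∧ cd w k = ρ := by
  let u : W := E.symm ρ
  have hirr : Irr (fun j => if j < k then x j else if j = k then none else u.1 (j - (k + 1))) := by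
    intro n
    obtain ⟨m, hm, h⟩ := u.2 n
    refine ⟨k + 1 + m, by omega, ?_⟩
    have h1 : ¬ k + 1 + m < k := by omega
    have h2 : ¬ k + 1 + m = k := by omega
    simp only [h1, h2, if_false]
    rw [show k + 1 + m - (k + 1) = m by omega]
    exact h
  refine ⟨⟨_, hirr⟩, ?_, ?_, ?_⟩
  · intro j hj
    show (if j < k then x j else _) = x j
    rw [if_pos hj]
  · show (if k < k then x k else if k = k then none else u.1 (k - (k + 1))) = none
    simp
  · have h1 : tl ⟨_, hirr⟩ k = u := by
      apply Subtype.ext
      funext j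
      show (if k + 1 + j < k then x (k + 1 + j) else if k + 1 + j = k then none
        else u.1 (k + 1 + j - (k + 1))) = u.1 j
      have h1 : ¬ k + 1 + j < k := by omega
      have h2 : ¬ k + 1 + j = k := by omega
      simp only [h1, h2, if_false]
      rw [show k + 1 + j - (k + 1) = j by omega]
    show E (tl ⟨_, hirr⟩ k) = ρ
    rw [h1]
    exact E.apply_symm_apply ρ

/-- The members of the base. -/
def A (w : W) (m : ℕ) : Set X :=
  {x | x = w.1 ∨ ∃ k, m ≤ k ∧ w.1 k = none ∧ (∀ j < k, x j = w.1 j) ∧ x k = some (cd w k)}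

theorem self_mem (w : W) (m : ℕ) : w.1 ∈ A w m := Or.inl rfl

theorem A_anti (w : W) {m n : ℕ} (h : m ≤ n) : A w n ⊆ A w m := by
  rintro x (hx | ⟨k, h1, h2⟩)
  · exact Or.inl hx
  · exact Or.inr ⟨k, h.trans h1, h2⟩

theorem A_cyl {w : W} {m : ℕ} {x : X} (h : x ∈ A w m) : ∀ j < m, x j = w.1 j := by
  intro j hj
  rcases h with rfl | ⟨k, h1, h2, h3, h4⟩
  · rfl
  · exact h3 j (hj.trans_le h1)

/-- The base. -/
def B : Set (Set X) := {U | U = ∅ ∨ ∃ w : W, ∃ m, w.1 m = none ∧ U = A w m}

/-- The main computation: if `w n = none` and `w' n` is the code of `w` at the first place `n` where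
`w` and `w'` differ. -/
theorem inter_eq {w w' : W} {m m' n : ℕ} (hn : ∀ j < n, w.1 j = w'.1 j) (h1 : w.1 n = none)
    (h2 : w'.1 n = some (cd w n)) (hm : m ≤ n) :
    ∃ m'', w'.1 m'' = none ∧ A w m ∩ A w' m' = A w' m'' := by
  classical
  have hex : ∃ j, (m' ≤ j ∧ n + 1 ≤ j) ∧ w'.1 j = none := by
    obtain ⟨j, hj, h⟩ := w'.2 (max m' (n + 1))
    exact ⟨j, ⟨(le_max_left _ _).trans hj, (le_max_right _ _).trans hj⟩, h⟩
  refine ⟨Nat.find hex, (Nat.find_spec hex).2, ?_⟩
  have h3 := (Nat.find_spec hex).1
  ext x
  constructor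
  · rintro ⟨hx, hx'⟩
    rcases hx' with hx' | ⟨k', a1, a2, a3, a4⟩
    · exact Or.inl hx'
    · have key : n + 1 ≤ k' := by
        by_contra hcon
        have hne : k' ≠ n := by
          rintro rfl
          rw [h2] at a2
          exact absurd a2 (by simp)
        have hlt : k' < n := by omega
        have hwk' : w.1 k' = none := by rw [hn k' hlt]; exact a2
        rcases hx with hx | ⟨k, b1, b2, b3, b4⟩
        · rw [hx, hwk'] at a4
          exact absurd a4 (by simp)
        · rcases lt_trichotomy k k' with h | h | h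
          · have e1 := a3 k h
            rw [b4, ← hn k (h.trans hlt), b2] at e1
            exact absurd e1 (by simp)
          · subst h
            have e1 : cd w k = cd w' k := by
              rw [a4] at b4
              exact (Option.some.inj b4).symm
            have e2 := cd_inj b2 a2 (fun j hj => hn j (hj.trans hlt)) e1
            rw [← e2, h1] at h2
            exact absurd h2 (by simp)
          · have e1 := b3 k' h
            rw [a4, hwk'] at e1
            exact absurd e1 (by simp)
      exact Or.inr ⟨k', Nat.find_min' hex ⟨⟨a1, key⟩, a2⟩, a2, a3, a4⟩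
  · intro hx
    refine ⟨Or.inr ⟨n, hm, h1, fun j hj => ?_, ?_⟩, A_anti w' h3.1 hx⟩
    · rw [A_cyl hx j (by omega), hn j hj]
    · rw [A_cyl hx n (by omega), h2]

theorem inter_mem {U V : Set X} (hU : U ∈ B) (hV : V ∈ B) : U ∩ V ∈ B := by
  classical
  rcases hU with rfl | ⟨w, m, hw, rfl⟩
  · left; simp
  rcases hV with rfl | ⟨w', m', hw', rfl⟩
  · left; simp
  by_cases hww : w = w'
  · subst hww
    right
    rcases le_total m m' with h | h
    · exact ⟨w, m', hw', inter_eq_right.2 (A_anti w h)⟩
    · exact ⟨w, m, hw, inter_eq_left.2 (A_anti w h)⟩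
  -- the first difference
  have hex : ∃ n, w.1 n ≠ w'.1 n := by
    by_contra hcon
    push Not at hcon
    exact hww (Subtype.ext (funext hcon))
  have hn : ∀ j < Nat.find hex, w.1 j = w'.1 j := fun j hj => by
    have := Nat.find_min hex hj
    push Not at this
    exact this
  have hne := Nat.find_spec hex
  set n := Nat.find hex
  rcases (A w m ∩ A w' m').eq_empty_or_nonempty with he | ⟨x, hx, hx'⟩
  · left; exact he
  right
  have key : (w.1 n = none ∧ w'.1 n = some (cd w n) ∧ m ≤ n) ∨
      (w'.1 n = none ∧ w.1 n = some (cd w' n) ∧ m' ≤ n) := by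
    rcases hx with hx | ⟨k, b1, b2, b3, b4⟩
    · rcases hx' with hx' | ⟨k', a1, a2, a3, a4⟩
      · exact absurd (Subtype.ext (hx.symm.trans hx')) hww
      · rw [hx] at a3 a4
        have : k' = n := by
          rcases lt_trichotomy k' n with h | h | h
          · have := hn k' h
            rw [a4, a2] at this
            exact absurd this (by simp)
          · exact h
          · exact absurd (a3 n h) hne
        subst this
        exact Or.inr ⟨a2, a4, a1⟩
    · rcases hx' with hx' | ⟨k', a1, a2, a3, a4⟩
      · rw [hx'] at b3 b4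
        have : k = n := by
          rcases lt_trichotomy k n with h | h | h
          · have := hn k h
            rw [b4, b2] at this
            exact absurd this (by simp)
          · exact h
          · exact absurd (b3 n h).symm hne
        subst this
        exact Or.inl ⟨b2, b4, b1⟩
      · rcases lt_trichotomy k k' with h | h | h
        · -- `w' k = some (cd w k)`
          have e1 : w'.1 k = some (cd w k) := by rw [← a3 k h]; exact b4
          have e2 : ∀ j < k, w.1 j = w'.1 j := fun j hj => by
            rw [← b3 j hj, a3 j (hj.trans h)]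
          have : k = n := by
            rcases lt_trichotomy k n with h' | h' | h'
            · have := hn k h'
              rw [e1, b2] at this
              exact absurd this (by simp)
            · exact h'
            · exact absurd (e2 n h') hne
          subst this
          exact Or.inl ⟨b2, e1, b1⟩
        · subst h
          have e1 : cd w k = cd w' k := by
            rw [a4] at b4
            exact (Option.some.inj b4).symm
          exact absurd (cd_inj b2 a2 (fun j hj => by rw [← b3 j hj, a3 j hj]) e1) hww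
        · have e1 : w.1 k' = some (cd w' k') := by rw [← b3 k' h]; exact a4
          have e2 : ∀ j < k', w.1 j = w'.1 j := fun j hj => by
            rw [← b3 j (hj.trans h), a3 j hj]
          have : k' = n := by
            rcases lt_trichotomy k' n with h' | h' | h'
            · have := hn k' h'
              rw [e1, a2] at this
              exact absurd this (by simp)
            · exact h'
            · exact absurd (e2 n h') hne
          subst this
          exact Or.inr ⟨a2, e1, a1⟩
  rcases key with ⟨k1, k2, k3⟩ | ⟨k1, k2, k3⟩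
  · obtain ⟨m'', e1, e2⟩ := inter_eq (m' := m') hn k1 k2 k3
    exact ⟨w', m'', e1, e2⟩
  · obtain ⟨m'', e1, e2⟩ := inter_eq (m' := m) (fun j hj => (hn j hj).symm) k1 k2 k3
    exact ⟨w, m'', e1, by rw [inter_comm]; exact e2⟩

instance : TopologicalSpace X := TopologicalSpace.generateFrom B

/-- Small neighbourhoods. -/
theorem exists_small (x : X) (n : ℕ) :
    ∃ w : W, ∃ m, n ≤ m ∧ w.1 m = none ∧ x ∈ A w m ∧ ∀ j < m, w.1 j = x j := by
  by_cases h : Irr x
  · obtain ⟨m, h1, h2⟩ := h n
    exact ⟨⟨x, h⟩, m, h1, h2, self_mem _ _, fun _ _ => rfl⟩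
  · unfold Irr at h
    push Not at h
    obtain ⟨n₀, hn₀⟩ := h
    obtain ⟨ρ, hρ⟩ := Option.ne_none_iff_exists'.1 (hn₀ (max n n₀) (le_max_right _ _))
    obtain ⟨w, h1, h2, h3⟩ := cd_surj x (max n n₀) ρ
    refine ⟨w, max n n₀, le_max_left _ _, h2, Or.inr ⟨_, le_rfl, h2, fun j hj => (h1 j hj).symm, ?_⟩,
      h1⟩
    rw [h3]; exact hρ

theorem isBasis_B : IsTopologicalBasis B where
  exists_subset_inter := fun U hU V hV x hx => ⟨U ∩ V, inter_mem hU hV, hx, subset_rfl⟩
  sUnion_eq := by
    rw [eq_univ_iff_forall]
    intro x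
    obtain ⟨w, m, _, h2, h3, _⟩ := exists_small x 0
    exact ⟨A w m, Or.inr ⟨w, m, h2, rfl⟩, h3⟩
  eq_generateFrom := rfl

theorem isOpen_A {w : W} {m : ℕ} (h : w.1 m = none) : IsOpen (A w m) :=
  isBasis_B.isOpen (Or.inr ⟨w, m, h, rfl⟩)

/-- Cylinders are open. -/
theorem isOpen_cyl (x : X) (n : ℕ) : IsOpen {y : X | ∀ j < n, y j = x j} := by
  rw [isBasis_B.isOpen_iff]
  intro y hy
  obtain ⟨w, m, h1, h2, h3, h4⟩ := exists_small y n
  refine ⟨A w m, Or.inr ⟨w, m, h2, rfl⟩, h3, fun u hu j hj => ?_⟩
  rw [A_cyl hu j (hj.trans_le h1), h4 j (hj.trans_le h1)]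
  exact hy j hj

theorem isClopen_A {w : W} {m : ℕ} (h : w.1 m = none) : IsClopen (A w m) := by
  classical
  refine ⟨⟨?_⟩, isOpen_A h⟩
  rw [isOpen_iff_forall_mem_open]
  intro x hx
  have hxw : x ≠ w.1 := fun h' => hx (Or.inl h')
  have hex : ∃ n, x n ≠ w.1 n := by
    by_contra hcon
    push Not at hcon
    exact hxw (funext hcon)
  have hn : ∀ j < Nat.find hex, x j = w.1 j := fun j hj => by
    have := Nat.find_min hex hj
    push Not at this
    exact this
  have hne := Nat.find_spec hex
  set n := Nat.find hex
  refine ⟨{y | ∀ j < n + 1, y j = x j}, ?_, isOpen_cyl x (n + 1), fun j _ => rfl⟩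
  intro y hy hyA
  rcases hyA with hyA | ⟨k, h1, h2, h3, h4⟩
  · apply hne
    rw [← hy n (Nat.lt_succ_self n), hyA]
  · rcases lt_trichotomy k n with h5 | h5 | h5
    · rw [hy k (by omega), hn k h5, h2] at h4
      exact absurd h4 (by simp)
    · subst h5
      apply hx
      refine Or.inr ⟨_, h1, h2, hn, ?_⟩
      rw [← hy _ (Nat.lt_succ_self _)]
      exact h4
    · apply hne
      rw [← hy n (Nat.lt_succ_self n)]
      exact h3 n h5

theorem isClopen_of_mem {U : Set X} (hU : U ∈ B) : IsClopen U := by
  rcases hU with rfl | ⟨w, m, h, rfl⟩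
  · exact isClopen_empty
  · exact isClopen_A h

instance : T2Space X := by
  refine ⟨fun x y hxy => ?_⟩
  have hex : ∃ n, x n ≠ y n := by
    by_contra hcon
    push Not at hcon
    exact hxy (funext hcon)
  obtain ⟨n, hn⟩ := hex
  refine ⟨{u | ∀ j < n + 1, u j = x j}, {u | ∀ j < n + 1, u j = y j}, isOpen_cyl x _,
    isOpen_cyl y _, fun _ _ => rfl, fun _ _ => rfl, ?_⟩
  rw [disjoint_left]
  intro u h1 h2
  exact hn ((h1 n (Nat.lt_succ_self n)).symm.trans (h2 n (Nat.lt_succ_self n)))

instance : T3Space X := by
  have : RegularSpace X := by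
    refine RegularSpace.of_exists_mem_nhds_isClosed_subset fun x s hs => ?_
    obtain ⟨U, hU, h1, h2⟩ := isBasis_B.mem_nhds_iff.1 hs
    exact ⟨U, (isBasis_B.isOpen hU).mem_nhds h1, (isClopen_of_mem hU).1, h2⟩
  exact {}

/-- In every cylinder there are points missing a given basic set with the same centre. -/
theorem not_cyl_subset (w : W) (m n : ℕ) : ¬ {y : X | ∀ j < n, y j = w.1 j} ⊆ A w m := by
  classical
  intro hsub
  -- a letter different from `w n` and from the code
  obtain ⟨r, hr1, hr2⟩ : ∃ r : R, some r ≠ w.1 n ∧ r ≠ cd w n := by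
    let r1 : R := fun _ => true
    let r2 : R := fun _ => false
    let r3 : R := fun n => if n = 0 then true else false
    have h12 : r1 ≠ r2 := fun h => by have := congrFun h 0; simp [r1, r2] at this
    have h13 : r1 ≠ r3 := fun h => by have := congrFun h 1; simp [r1, r3] at this
    have h23 : r2 ≠ r3 := fun h => by have := congrFun h 0; simp [r2, r3] at this
    by_contra hcon
    push Not at hcon
    by_cases e1 : some r1 = w.1 n
    · have e2 : some r2 ≠ w.1 n := fun h => h12 (Option.some.inj (e1.trans h.symm))
      have e3 : some r3 ≠ w.1 n := fun h => h13 (Option.some.inj (e1.trans h.symm))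
      exact h23 ((hcon r2 e2).trans (hcon r3 e3).symm)
    · by_cases e2 : some r2 = w.1 n
      · have e3 : some r3 ≠ w.1 n := fun h => h23 (Option.some.inj (e2.trans h.symm))
        exact h13 ((hcon r1 e1).trans (hcon r3 e3).symm)
      · exact h12 ((hcon r1 e1).trans (hcon r2 e2).symm)
  let y : X := fun j => if j = n then some r else w.1 j
  have hyn : y n = some r := if_pos rfl
  have hyj : ∀ j, j ≠ n → y j = w.1 j := fun j hj => if_neg hj
  have hy : y ∈ A w m := hsub fun j hj => hyj j hj.ne
  rcases hy with hy | ⟨k, h1, h2, h3, h4⟩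
  · rw [hy] at hyn
    exact hr1 hyn.symm
  · rcases eq_or_ne k n with h5 | h5
    · subst h5
      rw [hyn] at h4
      exact hr2 (Option.some.inj h4)
    · rw [hyj k h5, h2] at h4
      exact absurd h4 (by simp)

theorem perfect (x : X) : ¬ IsOpen ({x} : Set X) := by
  intro h
  obtain ⟨U, hU, h1, h2⟩ := isBasis_B.isOpen_iff.1 h x rfl
  rcases hU with rfl | ⟨w, m, hm, rfl⟩
  · exact h1
  · have e1 : w.1 = x := h2 (self_mem w m)
    -- another point of `A w m`
    let y : X := fun j => if j = m then some (cd w m) else w.1 j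
    have hym : y m = some (cd w m) := if_pos rfl
    have hy : y ∈ A w m := Or.inr ⟨m, le_rfl, hm, fun j hj => if_neg hj.ne, hym⟩
    have e2 : y = x := h2 hy
    rw [← e1] at e2
    rw [e2, hm] at hym
    exact absurd hym (by simp)

/-- No partition of the base into two bases. -/
theorem not_resolvable (B0 B1 : Set (Set X)) (hU : B0 ∪ B1 = B) (hd : Disjoint B0 B1) :
    ¬ (IsTopologicalBasis B0 ∧ IsTopologicalBasis B1) := by
  classical
  rintro ⟨hB0, hB1⟩
  -- the letter chosen at `m` depends on the sequence below `m`
  let good : (ℕ → Option R) → ℕ → R → Prop := fun x m ρ =>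
    ∃ w : W, (∀ j < m, w.1 j = x j) ∧ w.1 m = none ∧ cd w m = ρ ∧ A w m ∉ B0
  let F : (ℕ → Option R) → ℕ → Option R := fun x m =>
    if h : ∃ ρ, good x m ρ then some h.choose else none
  -- recursion
  have hgood : ∀ (x y : ℕ → Option R) (m : ℕ), (∀ j < m, x j = y j) → ∀ ρ, good x m ρ → good y m ρ := by
    rintro x y m hxy ρ ⟨w, h1, h2⟩
    exact ⟨w, fun j hj => (h1 j hj).trans (hxy j hj), h2⟩
  let st : ℕ → (ℕ → Option R) := fun n => Nat.rec (fun _ => none)
    (fun n x => Function.update x n (F x n)) n
  have hst : ∀ n, st (n + 1) = Function.update (st n) n (F (st n) n) := fun n => rfl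
  let z : X := fun n => st (n + 1) n
  have hz : ∀ n, z n = F (st n) n := fun n => by
    show st (n + 1) n = _
    rw [hst, Function.update_self]
  have hstz : ∀ n, ∀ j < n, st n j = z j := by
    intro n
    induction n with
    | zero => intro j hj; omega
    | succ n ih =>
      intro j hj
      rcases Nat.lt_succ_iff_lt_or_eq.1 hj with h | h
      · rw [hst, Function.update_of_ne h.ne]
        exact ih j h
      · rw [h]
  have hz0 : ∀ n, z n = none → ∀ w : W, (∀ j < n, w.1 j = z j) → w.1 n = none → A w n ∈ B0 := by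
    intro n hn w h1 h2
    by_contra hcon
    have hex : ∃ ρ, good (st n) n ρ :=
      ⟨cd w n, w, fun j hj => (h1 j hj).trans (hstz n j hj).symm, h2, rfl, hcon⟩
    rw [hz] at hn
    have : F (st n) n = some hex.choose := dif_pos hex
    rw [this] at hn
    exact absurd hn (by simp)
  have hz1 : ∀ n ρ, z n = some ρ → ∃ w : W, (∀ j < n, w.1 j = z j) ∧ w.1 n = none ∧ cd w n = ρ ∧
      A w n ∉ B0 := by
    intro n ρ hn
    rw [hz] at hn
    rcases Classical.em (∃ ρ, good (st n) n ρ) with hex | hex
    · have h1 : F (st n) n = some hex.choose := dif_pos hex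
      rw [h1] at hn
      have h2 : good (st n) n hex.choose := hex.choose_spec
      rw [Option.some.inj hn] at h2
      exact hgood (st n) z n (hstz n) ρ h2
    · have h1 : F (st n) n = none := dif_neg hex
      rw [h1] at hn
      exact absurd hn (by simp)
  by_cases hirr : Irr z
  · -- `B1` fails at `z`
    obtain ⟨m₀, -, hm₀⟩ := hirr 0
    obtain ⟨M, hM, hzM, hsub⟩ := hB1.isOpen_iff.1 (isOpen_A (w := ⟨z, hirr⟩) hm₀) z (self_mem _ _)
    have hMB : M ∈ B := by rw [← hU]; exact Or.inr hM
    rcases hMB with rfl | ⟨w, m', hw, rfl⟩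
    · exact hzM
    rcases hzM with h | ⟨k, h1, h2, h3, h4⟩
    · have hw' : w = ⟨z, hirr⟩ := Subtype.ext h.symm
      subst hw'
      exact disjoint_left.1 hd (hz0 m' hw ⟨z, hirr⟩ (fun _ _ => rfl) hw) hM
    · refine not_cyl_subset ⟨z, hirr⟩ m₀ (k + 1) (subset_trans ?_ hsub)
      intro y hy
      refine Or.inr ⟨k, h1, h2, fun j hj => ?_, ?_⟩
      · rw [hy j (by omega)]; exact h3 j hj
      · rw [hy k (by omega)]; exact h4
  · -- `B0` fails at `z`
    unfold Irr at hirr
    push Not at hirr
    obtain ⟨n₀, hn₀⟩ := hirr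
    obtain ⟨M, hM, hzM, hsub⟩ := hB0.isOpen_iff.1 (isOpen_cyl z n₀) z (fun _ _ => rfl)
    have hMB : M ∈ B := by rw [← hU]; exact Or.inl hM
    rcases hMB with rfl | ⟨w, m', hw, rfl⟩
    · exact hzM
    -- `w` agrees with `z` below `n₀`
    have hwz : ∀ j < n₀, w.1 j = z j := hsub (self_mem w m')
    have hm' : n₀ ≤ m' := by
      by_contra hcon
      push Not at hcon
      let y : X := fun j => if j = m' then some (cd w m') else w.1 j
      have hym : y m' = some (cd w m') := if_pos rfl
      have hy : y ∈ A w m' := Or.inr ⟨m', le_rfl, hw, fun j hj => if_neg hj.ne, hym⟩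
      have := hsub hy m' hcon
      rw [hym, ← hwz m' hcon, hw] at this
      exact absurd this (by simp)
    rcases hzM with h | ⟨k, h1, h2, h3, h4⟩
    · exact hn₀ m' hm' (by rw [h]; exact hw)
    · have hkm : k = m' := by
        by_contra hne
        have hlt : m' < k := lt_of_le_of_ne h1 (Ne.symm hne)
        exact hn₀ m' hm' (by rw [h3 m' hlt]; exact hw)
      subst hkm
      obtain ⟨w', e1, e2, e3, e4⟩ := hz1 k _ h4
      have : w' = w := cd_inj e2 hw (fun j hj => by rw [e1 j hj, h3 j hj]) e3
      subst this
      exact e4 hM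

/-- There is, in ZFC, a zero-dimensional Hausdorff space without isolated points which has a base
that is closed under finite intersections and is not resolvable. All members of the base are
clopen. -/
theorem result : ∃ (X : Type) (_ : TopologicalSpace X), T3Space X ∧
    (∀ x : X, ¬ IsOpen ({x} : Set X)) ∧
    ∃ B : Set (Set X), IsTopologicalBasis B ∧ (∀ U ∈ B, IsClopen U) ∧
      (∀ U ∈ B, ∀ V ∈ B, U ∩ V ∈ B) ∧
      ∀ B0 B1 : Set (Set X), B0 ∪ B1 = B → Disjoint B0 B1 →
        ¬ (IsTopologicalBasis B0 ∧ IsTopologicalBasis B1) :=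
  ⟨X, inferInstance, inferInstance, perfect, B, isBasis_B, fun _ h => isClopen_of_mem h,
    fun _ hU _ hV => inter_mem hU hV, not_resolvable⟩

end Pool.Agent.Results.MP_87f021_gt.IntersectionClosedBase
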